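import Mathlib

namespace Pool.Agent.Results.MP_890654_pr.Brackets

open Set

variable {ι S : Type}

/-- The BKR product. -/
def box (A B : Set (ι → S)) : Set (ι → S) := {x | ∃ K L : Set ι, Disjoint K L ∧
  {y | ∀ i ∈ K, y i = x i} ⊆ A ∧ {y | ∀ i ∈ L, y i = x i} ⊆ B}

/-- The product of `A 0, A 1, …` bracketed along a binary tree. -/
def ev : BinaryTree Unit → (ℕ → Set (ι → S)) → Set (ι → S)
  | .nil, A => A 0
  | .node _ l r, A => box (ev l A) (ev r fun m => A (l.numLeaves + m))

lemma comm (A B : Set (ι → S)) : box A B = box B A := by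
  ext; exact ⟨fun ⟨K, L, h, a, b⟩ => ⟨L, K, h.symm, b, a⟩, fun ⟨K, L, h, a, b⟩ => ⟨L, K, h.symm, b, a⟩⟩

lemma bu (A : Set (ι → S)) : box A univ = A := by
  ext x
  exact ⟨fun ⟨_, _, _, a, _⟩ => a fun _ _ => rfl, fun h => ⟨univ, ∅, by simp, fun y hy => by
    rwa [show y = x from funext fun i => hy i trivial], subset_univ _⟩⟩

lemma cg (t : BinaryTree Unit) : ∀ A B : ℕ → Set (ι → S), (∀ m < t.numLeaves, A m = B m) →
    ev t A = ev t B := by
  induction t with
  | nil => exact fun A B h => h 0 one_pos
  | node _ l r a b =>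
    intro A B h
    rw [ev, ev, a A B fun m hm => h m (by simp; omega), b _ _ fun m hm => h _ (by simp; omega)]

lemma zero (t : BinaryTree Unit) : ∀ A : ℕ → Set (ι → S), (∀ m < t.numLeaves, A m = univ) →
    ev t A = univ := by
  induction t with
  | nil => exact fun A h => h 0 one_pos
  | node _ l r a b =>
    intro A h
    rw [ev, a A fun m hm => h m (by simp; omega), b _ fun m hm => h _ (by simp; omega), bu]

/-- Only positions `i`, `j` are nontrivial. -/
lemma two (t : BinaryTree Unit) : ∀ (A : ℕ → Set (ι → S)) (i j : ℕ), i < j → i < t.numLeaves →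
    (∀ m < t.numLeaves, m ≠ i → m ≠ j → A m = univ) →
    ev t A = box (A i) (if j < t.numLeaves then A j else univ) := by
  induction t with
  | nil =>
    intro A i j ij hi _
    simp only [BinaryTree.numLeaves] at *
    rw [if_neg (by omega), bu, show i = 0 by omega, ev]
  | node _ l r a b =>
    intro A i j ij hi h
    have := l.numLeaves_pos
    have := r.numLeaves_pos
    simp only [BinaryTree.numLeaves] at *
    rw [ev]
    by_cases h1 : i < l.numLeaves
    · rw [a A i j ij h1 fun m hm => h m (by omega)]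
      by_cases h2 : j < l.numLeaves
      · rw [zero r _ fun m hm => h _ (by omega) (by omega) (by omega), bu, if_pos h2,
          if_pos (by omega)]
      · rw [if_neg h2, bu]
        split_ifs with h3
        · rw [b _ (j - l.numLeaves) r.numLeaves (by omega) (by omega)
            fun m hm _ _ => h _ (by omega) (by omega) (by omega), if_neg (by omega), bu,
            Nat.add_sub_cancel' (by omega)]
        · rw [zero r _ fun m hm => h _ (by omega) (by omega) (by omega)]
    · rw [zero l _ fun m hm => h _ (by omega) (by omega) (by omega), comm, bu,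
        b _ (i - l.numLeaves) (j - l.numLeaves) (by omega) (by omega)
          fun m hm _ _ => h _ (by omega) (by omega) (by omega), Nat.add_sub_cancel' (by omega),
        Nat.add_sub_cancel' (by omega)]
      simp only [show j - l.numLeaves < r.numLeaves ↔ j < l.numLeaves + r.numLeaves by omega]
      rfl

def D : Fin 4 → Set (Fin 2 → Fin 4) :=
  ![{x | x 0 = 0 ∨ x 1 = 0}, {x | x 0 = 0 ∨ x 1 ≠ 0}, {x | x 1 = 0}, univ]

lemma ne3 : box (box (D 0) (D 1)) (D 2) ≠ box (D 0) (box (D 1) (D 2)) := fun h => by
  have : (0 : Fin 2 → Fin 4) ∈ box (box (D 0) (D 1)) (D 2) := by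
    refine ⟨{0}, {1}, by simp, fun y hy => ?_, fun y hy => hy 1 rfl⟩
    by_cases e : y 1 = 0
    · exact ⟨{1}, {0}, by simp, fun z hz => .inr ((hz 1 rfl).trans e),
        fun z hz => .inl ((hz 0 rfl).trans (hy 0 rfl))⟩
    · exact ⟨{0}, {1}, by simp, fun z hz => .inl ((hz 0 rfl).trans (hy 0 rfl)),
        fun z hz => .inr ((hz 1 rfl).trans_ne e)⟩
  obtain ⟨K, L, d, a, b⟩ := h ▸ this
  have m : ∀ y ∈ box (D 1) (D 2), y 0 = 0 ∧ y 1 = 0 := fun y ⟨_, _, _, a, b⟩ => by
    have h1 : y 1 = 0 := b fun _ _ => rfl
    exact ⟨(a fun _ _ => rfl).resolve_right (not_not.2 h1), h1⟩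
  have l : ∀ i, i ∈ L := fun i => by
    by_contra hi
    have := m (Pi.single i 1) (b fun j hj => Pi.single_eq_of_ne (ne_of_mem_of_not_mem hj hi) _)
    fin_cases i <;> simp at this
  have := a (a := 1) fun i hi => (disjoint_left.1 d hi (l i)).elim
  simp [D] at this

lemma sep (t : BinaryTree Unit) : ∀ s : BinaryTree Unit, t.numLeaves = s.numLeaves →
    (∀ a : ℕ → Fin 4, ev t (fun m => D (a m)) = ev s fun m => D (a m)) → t = s := by
  have key : ∀ l r l' r' : BinaryTree Unit, l.numLeaves + r.numLeaves = l'.numLeaves + r'.numLeaves →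
      l.numLeaves < l'.numLeaves → ¬ ∀ a : ℕ → Fin 4, ev (.node () l r) (fun m => D (a m)) =
        ev (.node () l' r') fun m => D (a m) := fun l r l' r' e lt h => by
    have := l.numLeaves_pos
    have := r'.numLeaves_pos
    have := h fun m => if m = 0 then 0 else if m = l.numLeaves then 1 else
      if m = l'.numLeaves then 2 else 3
    rw [ev, ev, two l _ 0 l.numLeaves, two r _ 0 (l'.numLeaves - l.numLeaves),
      two l' _ 0 l.numLeaves, two r' _ 0 r'.numLeaves] at this
    · simp only [Nat.add_sub_cancel' lt.le, lt_irrefl, if_false, bu, lt, if_true, add_zero,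
        show l'.numLeaves - l.numLeaves < r.numLeaves by omega, l.numLeaves_pos.ne',
        l'.numLeaves_pos.ne', lt.ne'] at this
      exact ne3 this.symm
    all_goals first
      | omega
      | intro m _ _ _
        rw [if_neg (by omega), if_neg (by omega), if_neg (by omega)]
        rfl
  have u : ∀ r : BinaryTree Unit, ev r (fun _ => D 3) = univ := fun r => zero r _ fun _ _ => rfl
  induction t with
  | nil => rintro (_ | ⟨_, l, r⟩) h _
           · rfl
           · have := l.numLeaves_pos; have := r.numLeaves_pos; simp at h; omega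
  | node _ l r a b =>
    rintro (_ | ⟨_, l', r'⟩) h g
    · have := l.numLeaves_pos; have := r.numLeaves_pos; simp at h; omega
    simp only [BinaryTree.numLeaves] at h
    rcases lt_trichotomy l.numLeaves l'.numLeaves with e | e | e
    · exact (key _ _ _ _ h e g).elim
    · rw [a l' e fun x => ?_, b r' (by omega) fun x => ?_]
      · have := g fun m => if m < l.numLeaves then 3 else x (m - l.numLeaves)
        rw [ev, ev, cg l _ (fun _ => D 3) fun m hm => by rw [if_pos hm],
          cg l' _ (fun _ => D 3) fun m hm => by rw [if_pos (by omega)], u, u, comm, bu, comm, bu] at this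
        simpa [e] using this
      · have := g fun m => if m < l.numLeaves then x m else 3
        rwa [ev, ev, cg r _ (fun _ => D 3) fun m hm => by rw [if_neg (by omega)],
          cg r' _ (fun _ => D 3) fun m hm => by rw [if_neg (by omega)], u, u, bu, bu,
          cg l _ (fun m => D (x m)) fun m hm => by rw [if_pos hm],
          cg l' _ (fun m => D (x m)) fun m hm => by rw [if_pos (by omega)]] at this
    · exact (key _ _ _ _ h.symm e fun a => (g a).symm).elim

def tg {r : ℕ} (x : Fin (2 + r) → Fin 4) (m : ℕ) : Fin 4 :=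
  if h : m < r then x (Fin.natAdd 2 ⟨m, h⟩) else 3

lemma ta {r : ℕ} (y : Fin 2 → Fin 4) (z : Fin r → Fin 4) (m : ℕ) :
    tg (Fin.append y z) m = if h : m < r then z ⟨m, h⟩ else 3 := by simp only [tg, Fin.append_right]

lemma red {r : ℕ} (t : BinaryTree Unit) : ∀ o (x : Fin (2 + r) → Fin 4), x ∈ ev t (fun m =>
    {y | (fun i => y (Fin.castAdd r i)) ∈ D (tg y (o + m))}) ↔
      (fun i => x (Fin.castAdd r i)) ∈ ev t fun m => D (tg x (o + m)) := by
  induction t with
  | nil => exact fun _ _ => Iff.rfl
  | node _ l s a b =>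
    intro o x
    simp only [ev, ← add_assoc]
    constructor
    · rintro ⟨K, L, d, h1, h2⟩
      have e : ∀ (K : Set (Fin (2 + r))) (y : Fin 2 → Fin 4), (∀ i ∈ Fin.castAdd r ⁻¹' K,
          y i = x (Fin.castAdd r i)) → ∀ i ∈ K, Fin.append y (fun j => x (Fin.natAdd 2 j)) i = x i :=
        fun K y hy i hi => by
          induction i using Fin.addCases with
          | left i => simpa using hy i hi
          | right i => simp
      refine ⟨_, _, d.preimage (Fin.castAdd r), fun y hy => ?_, fun y hy => ?_⟩
      · simpa only [tg, Fin.append_right, Fin.append_left] using (a o _).1 (h1 (e K y hy))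
      · simpa only [tg, Fin.append_right, Fin.append_left] using (b _ _).1 (h2 (e L y hy))
    · rintro ⟨K, L, d, h1, h2⟩
      refine ⟨Fin.castAdd r '' K ∪ {i | 2 ≤ i.1 ∧ i.1 < 2 + o + l.numLeaves},
        Fin.castAdd r '' L ∪ {i | 2 + o + l.numLeaves ≤ i.1}, ?_, fun y hy => (a o y).2 ?_,
        fun y hy => (b _ y).2 ?_⟩
      · rw [disjoint_left]
        rintro _ (⟨i, h, rfl⟩ | h) (⟨j, g, e⟩ | g)
        · exact disjoint_left.1 d h (Fin.castAdd_injective _ _ e ▸ g)
        · simp at g; omega
        · subst e; simp at h; omega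
        · simp at g h; omega
      · rw [cg l _ (fun m => D (tg x (o + m))) fun m hm => ?_]
        · exact h1 fun i hi => hy _ (.inl ⟨i, hi, rfl⟩)
        · simp only [tg]; split_ifs; rw [hy _ (.inr (by simp; omega))]; rfl
      · rw [cg s _ (fun m => D (tg x (o + l.numLeaves + m))) fun m hm => ?_]
        · exact h2 fun i hi => hy _ (.inl ⟨i, hi, rfl⟩)
        · simp only [tg]; split_ifs; rw [hy _ (.inr (by simp; omega))]; rfl

theorem result (r : ℕ) : ∃ (S : Type) (d : ℕ) (A : ℕ → Set (Fin d → S)), Nonempty S ∧ 1 ≤ d ∧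
    InjOn (fun t => ev t A) {t : BinaryTree Unit | t.numLeaves = r} := by
  refine ⟨Fin 4, 2 + r, fun m => {y | (fun i => y (Fin.castAdd r i)) ∈ D (tg y (0 + m))},
    inferInstance, by omega, fun t ht s hs h => sep t s (ht.trans hs.symm) fun a => ?_⟩
  ext y
  have e : ∀ t : BinaryTree Unit, t.numLeaves = r → ev t (fun m => D (a m)) = ev t fun m =>
      D (tg (Fin.append y fun j : Fin r => a j) (0 + m)) := fun t ht =>
    cg t _ _ fun m hm => by simp [ta, ht ▸ hm]
  have := red (r := r) t 0 (Fin.append y fun j : Fin r => a j)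
  have h2 := red (r := r) s 0 (Fin.append y fun j : Fin r => a j)
  simp only [Fin.append_left] at this h2
  rw [e t ht, e s hs, ← this, ← h2]
  exact Set.ext_iff.1 h _

end Pool.Agent.Results.MP_890654_pr.Brackets
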